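import Pool.Agent.Helper89K9.MO.Stm2

/-!
# Project MO: the leaf CORE1 (the proof of helper26 for odd moduli)
-/

set_option autoImplicit false

namespace Pool.Agent.Helper89K9.MO

open Finset
open Pool.Agent.Helper89K9.MO.Inv (LD)
open Pool.Agent.H699R2.OMV (Prog Vec Mat)
open Pool.Agent.Helper89K9.MC (S_TAIL chi sgn lam)
open Pool.Agent.Helper89K9.MA (par)

namespace Core1L

lemma norm_sgn {n : ℕ} (S : Finset (Fin n)) (z : Vec n) : ‖sgn S z‖ = 1 := by
  unfold sgn
  rw [norm_prod]
  apply Finset.prod_eq_one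
  intro r _
  split_ifs <;> simp

lemma sgn_orth {n : ℕ} (a b : Vec n) :
    ∑ S : Finset (Fin n), sgn S a * sgn S b = if a = b then (2 : ℂ) ^ n else 0 := by
  have h1 : ∀ S : Finset (Fin n), sgn S a * sgn S b =
      ∏ r ∈ S, ((if a r = 0 then (1 : ℂ) else -1) * (if b r = 0 then (1 : ℂ) else -1)) := by
    intro S
    unfold sgn
    rw [Finset.prod_mul_distrib]
  simp only [h1]
  have h2 := Finset.prod_one_add (s := (univ : Finset (Fin n)))
    (f := fun r => (if a r = 0 then (1 : ℂ) else -1) * (if b r = 0 then (1 : ℂ) else -1))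
  rw [Finset.powerset_univ] at h2
  rw [← h2]
  by_cases hab : a = b
  · rw [if_pos hab, hab]
    have h3 : ∀ r ∈ (univ : Finset (Fin n)), (1 : ℂ) + (if b r = 0 then (1 : ℂ) else -1) *
        (if b r = 0 then (1 : ℂ) else -1) = 2 := by
      intro r _
      split_ifs <;> norm_num
    rw [Finset.prod_congr rfl h3]
    simp
  · rw [if_neg hab]
    obtain ⟨r, hr⟩ : ∃ r, a r ≠ b r := by
      by_contra hc
      push Not at hc
      exact hab (funext hc)
    apply Finset.prod_eq_zero (Finset.mem_univ r)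
    have h4 : ∀ x y : ZMod 2, x ≠ y → (x = 0 ∧ y ≠ 0) ∨ (x ≠ 0 ∧ y = 0) := by decide
    rcases h4 _ _ hr with ⟨h5, h6⟩ | ⟨h5, h6⟩
    · rw [if_pos h5, if_neg h6]
      norm_num
    · rw [if_neg h5, if_pos h6]
      norm_num

lemma sgn_sum {K : ℕ} (s : Finset (Fin K)) (b : Fin K → Bool) :
    (if (∑ k ∈ s, if b k then (1 : ZMod 2) else 0) = 0 then (1 : ℂ) else -1) =
      ∏ k ∈ s, if b k then (-1 : ℂ) else 1 := by
  classical
  induction s using Finset.induction_on with
  | empty => simp
  | insert k s hk ih =>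
    rw [Finset.sum_insert hk, Finset.prod_insert hk, ← ih]
    generalize (∑ k ∈ s, if b k then (1 : ZMod 2) else 0) = y
    have h : ∀ y : ZMod 2, y = 0 ∨ y = 1 := by decide
    have h11 : (1 : ZMod 2) + 1 = 0 := by decide
    rcases h y with rfl | rfl <;> cases b k <;> simp [h11]

/-- the sign of the row parities is the parity character of the rows -/
lemma sgn_par {n K : ℕ} (S : Finset (Fin n)) (x : Fin n × Fin K → Bool) :
    sgn S (par x) = chi (S ×ˢ (univ : Finset (Fin K))) x := by
  unfold sgn chi par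
  rw [Finset.prod_product]
  exact Finset.prod_congr rfl fun r _ => sgn_sum univ fun k => x (r, k)

lemma one_le_lam (p : ℕ) [hp : NeZero p] (D : ℕ) : 1 ≤ lam p D := by
  unfold lam
  apply one_le_pow₀
  have h1 : (1 : ℝ) ≤ p := by exact_mod_cast (Nat.one_le_iff_ne_zero.2 (NeZero.ne p))
  have h2 : (1 : ℝ) ≤ 2 ^ (p - 1) := one_le_pow₀ (by norm_num)
  nlinarith

end Core1L

open Core1L

theorem core1 : S_TREE → S_COR → S_TAIL → S_CORE1 := by
  classical
  intro hTree hCor hTail p _ hp2 n K A W D s τ m T u hm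
  obtain ⟨b, hb⟩ : ∃ b : ℝ, b = 1 - 1 / lam p D := ⟨_, rfl⟩
  have hlam := one_le_lam p D
  have hb0 : 0 ≤ b := by
    rw [hb, sub_nonneg, div_le_one (by linarith)]
    exact hlam
  have hb1 : b ≤ 1 := by
    rw [hb]
    have : 0 ≤ 1 / lam p D := by positivity
    linarith
  have hXcard : (Fintype.card (Fin n × Fin K → Bool) : ℝ) = 2 ^ (n * K) := by
    have h1 : Fintype.card (Fin n × Fin K → Bool) = 2 ^ (n * K) := by
      rw [Fintype.card_fun, Fintype.card_bool, Fintype.card_prod, Fintype.card_fin,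
        Fintype.card_fin]
    rw [h1]
    push_cast
    rfl
  -- the correlations
  set F : Finset (Fin n) → ℂ := fun S => ∑ x : Fin n × Fin K → Bool,
    (if (T.addrs (m x)).length ≤ τ then
      sgn S (par x) * sgn S (u + T.out (m x)) else 0) with hF
  have hF2 : ∀ S, ‖F S‖ ≤ 2 ^ (n * K) := by
    intro S
    calc _ ≤ ∑ x : Fin n × Fin K → Bool, ‖(if (T.addrs (m x)).length ≤ τ then
        sgn S (par x) * sgn S (u + T.out (m x)) else 0)‖ := norm_sum_le _ _
      _ ≤ ∑ _x : Fin n × Fin K → Bool, (1 : ℝ) := by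
        apply Finset.sum_le_sum
        intro x _
        split_ifs
        · rw [norm_mul, norm_sgn, norm_sgn, one_mul]
        · simp
      _ = 2 ^ (n * K) := by
        rw [Finset.sum_const, Finset.card_univ, nsmul_eq_mul, mul_one, hXcard]
  have hF3 : ∀ S : Finset (Fin n), ¬ 4 * S.card < n →
      ‖F S‖ ≤ ((p : ℝ) ^ s) ^ τ * (2 ^ (n * K) * b ^ (n * K / 4)) := by
    intro S hS
    apply hTree p (Fin n × Fin K → Bool) A W (Vec n) (LD (ZMod p) (Fin n × Fin K) D) s m hm
      (fun o => sgn S (u + o)) (fun o => (norm_sgn _ _).le)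
      (2 ^ (n * K) * b ^ (n * K / 4)) T τ (fun x => sgn S (par x))
    intro Q hQ
    have h1 := hCor p hp2 (Fin n × Fin K) D Q hQ (S ×ˢ (univ : Finset (Fin K)))
    rw [Fintype.card_prod, Fintype.card_fin, Fintype.card_fin, card_product, card_univ,
      Fintype.card_fin] at h1
    simp only [sgn_par]
    rw [← hb] at h1
    refine h1.trans (mul_le_mul_of_nonneg_left ?_ (by positivity))
    apply pow_le_pow_of_le_one hb0 hb1
    have h2 : n ≤ 4 * S.card := not_lt.mp hS
    have h3 : n * K ≤ 4 * S.card * K := Nat.mul_le_mul_right K h2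
    have h4 : 4 * S.card * K = 4 * (S.card * K) := by ring
    omega
  -- the count
  set C := (univ.filter fun z : Fin n × Fin K → Bool => T.out (m z) = u + par z ∧
      (T.addrs (m z)).length ≤ τ).card with hC
  have hC1 : (C : ℂ) = ∑ x : Fin n × Fin K → Bool, (if T.out (m x) = u + par x ∧
      (T.addrs (m x)).length ≤ τ then (1 : ℂ) else 0) := by
    rw [hC, Finset.sum_boole]
  have hchar : ∀ a c d : Vec n, a = c + d ↔ d = c + a := by
    intro a c d
    have h1 : ∀ x y z : ZMod 2, x = y + z ↔ z = y + x := by decide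
    constructor
    · intro h; funext r; exact (h1 _ _ _).1 (congrFun h r)
    · intro h; funext r; exact (h1 _ _ _).2 (congrFun h r)
  have hsum : ∑ S, F S = 2 ^ n * (C : ℂ) := by
    simp only [hF]
    rw [Finset.sum_comm, hC1, Finset.mul_sum]
    apply Finset.sum_congr rfl
    intro x _
    by_cases hl : (T.addrs (m x)).length ≤ τ
    · simp only [if_pos hl]
      rw [sgn_orth]
      by_cases ho : T.out (m x) = u + par x
      · rw [if_pos ((hchar _ _ _).1 ho), if_pos ⟨ho, hl⟩, mul_one]
      · rw [if_neg, if_neg, mul_zero]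
        · intro hc
          exact ho hc.1
        · intro hc
          exact ho ((hchar _ _ _).2 hc)
    · simp only [if_neg hl]
      rw [if_neg]
      · simp
      · intro hc
        exact hl hc.2
  have hmain : (2 : ℝ) ^ n * C ≤ ∑ S, ‖F S‖ := by
    have h1 : ‖(2 : ℂ) ^ n * (C : ℂ)‖ = 2 ^ n * C := by
      rw [norm_mul, norm_pow, Complex.norm_natCast]
      norm_num
    rw [← h1, ← hsum]
    exact norm_sum_le _ _
  set R : ℝ := ((p : ℝ) ^ s) ^ τ * (2 ^ (n * K) * b ^ (n * K / 4)) with hR
  have hR0 : 0 ≤ R := by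
    rw [hR]
    positivity
  have hsplit : ∑ S, ‖F S‖ ≤
      ((univ.filter fun S : Finset (Fin n) => 4 * S.card < n).card : ℝ) * 2 ^ (n * K) +
        2 ^ n * R := by
    rw [← Finset.sum_filter_add_sum_filter_not univ (fun S : Finset (Fin n) => 4 * S.card < n)]
    apply add_le_add
    · calc _ ≤ ∑ _S ∈ univ.filter (fun S : Finset (Fin n) => 4 * S.card < n),
            (2 : ℝ) ^ (n * K) := Finset.sum_le_sum (fun S _ => hF2 S)
        _ = _ := by rw [Finset.sum_const, nsmul_eq_mul]
    · calc _ ≤ ∑ _S ∈ univ.filter (fun S : Finset (Fin n) => ¬ 4 * S.card < n), R :=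
            Finset.sum_le_sum (fun S hS => hF3 S (Finset.mem_filter.mp hS).2)
        _ = ((univ.filter fun S : Finset (Fin n) => ¬ 4 * S.card < n).card : ℝ) * R := by
            rw [Finset.sum_const, nsmul_eq_mul]
        _ ≤ 2 ^ n * R := by
            apply mul_le_mul_of_nonneg_right _ hR0
            have h1 : (univ.filter fun S : Finset (Fin n) => ¬ 4 * S.card < n).card ≤ 2 ^ n := by
              calc _ ≤ (univ : Finset (Finset (Fin n))).card := Finset.card_filter_le _ _
                _ = 2 ^ n := by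
                  rw [Finset.card_univ, Fintype.card_finset, Fintype.card_fin]
            exact_mod_cast h1
  have htail : ((univ.filter fun S : Finset (Fin n) => 4 * S.card < n).card : ℝ) ≤
      2 ^ n * (1 / 2 ^ (n / 8)) := by
    have h1 := hTail n
    have h2 : ((univ.filter fun S : Finset (Fin n) => 4 * S.card < n).card : ℝ) * 2 ^ (n / 8) ≤
        2 ^ n := by exact_mod_cast h1
    rw [mul_one_div, le_div_iff₀ (by positivity)]
    exact h2
  have hfin : (2 : ℝ) ^ n * C ≤ 2 ^ n * (2 ^ (n * K) * (1 / 2 ^ (n / 8) +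
        ((p : ℝ) ^ s) ^ τ * b ^ (n * K / 4))) := by
    calc (2 : ℝ) ^ n * C ≤ _ := hmain.trans hsplit
      _ ≤ 2 ^ n * (1 / 2 ^ (n / 8)) * 2 ^ (n * K) + 2 ^ n * R := by
          have : (0 : ℝ) ≤ 2 ^ (n * K) := by positivity
          nlinarith [mul_le_mul_of_nonneg_right htail this]
      _ = _ := by
          rw [hR]
          ring
  rw [← hb]
  exact le_of_mul_le_mul_left hfin (by positivity)

end Pool.Agent.Helper89K9.MO
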