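import Mathlib

/-!
# Functions of low degree on the Boolean cube, over a commutative ring
-/

set_option autoImplicit false

namespace Pool.Agent.Helper89K9.MO.Inv

open Finset

variable {K : Type*} [CommRing K] {V W : Type*} [Fintype V] [DecidableEq V] [Fintype W]
  [DecidableEq W]

/-- a truth value as an element of the ring -/
def bK (b : Bool) : K := if b then 1 else 0

@[simp] theorem bK_true : (bK true : K) = 1 := rfl
@[simp] theorem bK_false : (bK false : K) = 0 := rfl

theorem bK_mul_self (b : Bool) : (bK b : K) * bK b = bK b := by cases b <;> simp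

/-- a monomial -/
def mono (B : Finset V) (x : V → Bool) : K := ∏ i ∈ B, bK (x i)

/-- the functions of degree at most `d` -/
def LD (K : Type*) [CommRing K] (V : Type*) [DecidableEq V] (d : ℕ) : Submodule K ((V → Bool) → K) :=
  Submodule.span K {f | ∃ B : Finset V, B.card ≤ d ∧ f = mono B}

omit [Fintype V] in
theorem mono_mem {B : Finset V} {d : ℕ} (h : B.card ≤ d) : (mono B : (V → Bool) → K) ∈ LD K V d :=
  Submodule.subset_span ⟨B, h, rfl⟩

omit [Fintype V] in
theorem LD_mono {d e : ℕ} (h : d ≤ e) : LD K V d ≤ LD K V e :=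
  Submodule.span_mono fun _ ⟨B, hB, hf⟩ => ⟨B, hB.trans h, hf⟩

omit [Fintype V] in
theorem one_mem (d : ℕ) : (1 : (V → Bool) → K) ∈ LD K V d := by
  have : (1 : (V → Bool) → K) = mono (∅ : Finset V) := by
    funext x; simp [mono]
  rw [this]
  exact mono_mem (by simp)

omit [Fintype V] in
theorem const_mem (c : K) (d : ℕ) : (fun _ => c : (V → Bool) → K) ∈ LD K V d := by
  have : (fun _ => c : (V → Bool) → K) = c • (1 : (V → Bool) → K) := by
    funext x; simp
  rw [this]
  exact Submodule.smul_mem _ _ (one_mem d)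

omit [Fintype V] in
theorem coord_mem (i : V) : (fun x : V → Bool => (bK (x i) : K)) ∈ LD K V 1 := by
  have : (fun x : V → Bool => (bK (x i) : K)) = mono {i} := by
    funext x; simp [mono]
  rw [this]
  exact mono_mem (by simp)

omit [Fintype V] in
theorem mono_mul_mono (B C : Finset V) :
    (mono B : (V → Bool) → K) * mono C = mono (B ∪ C) := by
  funext x
  have key : ∀ D : Finset V, (mono D x : K) = if ∀ i ∈ D, x i = true then 1 else 0 := by
    intro D
    unfold mono
    split_ifs with h
    · exact Finset.prod_eq_one fun i hi => by rw [h i hi]; rfl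
    · push Not at h
      obtain ⟨i, hi, hx⟩ := h
      refine Finset.prod_eq_zero hi ?_
      have hx' : x i = false := by simpa using hx
      rw [hx']; rfl
  simp only [Pi.mul_apply, key]
  by_cases h1 : ∀ i ∈ B, x i = true
  · by_cases h2 : ∀ i ∈ C, x i = true
    · have h3 : ∀ i ∈ B ∪ C, x i = true := by
        intro i hi
        rcases Finset.mem_union.1 hi with h | h
        exacts [h1 i h, h2 i h]
      simp only [if_pos h1, if_pos h2, if_pos h3, mul_one]
    · have h3 : ¬ ∀ i ∈ B ∪ C, x i = true := fun h =>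
        h2 fun i hi => h i (Finset.mem_union_right _ hi)
      simp only [if_neg h2, if_neg h3, mul_zero]
  · have h3 : ¬ ∀ i ∈ B ∪ C, x i = true := fun h =>
      h1 fun i hi => h i (Finset.mem_union_left _ hi)
    simp only [if_neg h1, if_neg h3, zero_mul]

omit [Fintype V] in
theorem mul_mem {f g : (V → Bool) → K} {d e : ℕ} (hf : f ∈ LD K V d) (hg : g ∈ LD K V e) :
    f * g ∈ LD K V (d + e) := by
  refine Submodule.span_induction (p := fun f _ => f * g ∈ LD K V (d + e)) ?_ ?_ ?_ ?_ hf
  · rintro f ⟨B, hB, rfl⟩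
    refine Submodule.span_induction (p := fun g _ => mono B * g ∈ LD K V (d + e)) ?_ ?_ ?_ ?_ hg
    · rintro g ⟨C, hC, rfl⟩
      rw [mono_mul_mono]
      exact mono_mem ((Finset.card_union_le _ _).trans (Nat.add_le_add hB hC))
    · rw [mul_zero]; exact Submodule.zero_mem _
    · intro a b _ _ ha hb
      rw [mul_add]; exact Submodule.add_mem _ ha hb
    · intro c a _ ha
      rw [mul_smul_comm]; exact Submodule.smul_mem _ _ ha
  · rw [zero_mul]; exact Submodule.zero_mem _
  · intro a b _ _ ha hb
    rw [add_mul]; exact Submodule.add_mem _ ha hb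
  · intro c a _ ha
    rw [smul_mul_assoc]; exact Submodule.smul_mem _ _ ha

omit [Fintype V] in
theorem pow_mem' {f : (V → Bool) → K} {d : ℕ} (hf : f ∈ LD K V d) (n : ℕ) :
    f ^ n ∈ LD K V (n * d) := by
  induction n with
  | zero => rw [pow_zero]; exact one_mem _
  | succ n ih =>
    rw [pow_succ]
    have := mul_mem ih hf
    rwa [show n * d + d = (n + 1) * d by ring] at this

omit [Fintype V] in
theorem prod_mem' {ι : Type*} (s : Finset ι) (f : ι → (V → Bool) → K) (d : ι → ℕ)
    (hf : ∀ i ∈ s, f i ∈ LD K V (d i)) : ∏ i ∈ s, f i ∈ LD K V (∑ i ∈ s, d i) := by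
  classical
  induction s using Finset.induction_on with
  | empty => rw [Finset.prod_empty, Finset.sum_empty]; exact one_mem _
  | insert i s hi ih =>
    rw [Finset.prod_insert hi, Finset.sum_insert hi]
    exact mul_mem (hf i (Finset.mem_insert_self _ _))
      (ih fun j hj => hf j (Finset.mem_insert_of_mem hj))

omit [Fintype V] in
/-- a function of one bit -/
theorem bit_mem (φ : Bool → K) (i : V) : (fun x : V → Bool => φ (x i)) ∈ LD K V 1 := by
  have : (fun x : V → Bool => φ (x i)) =
      (fun _ => φ false) + (φ true - φ false) • (fun x : V → Bool => (bK (x i) : K)) := by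
    funext x
    simp only [Pi.add_apply, Pi.smul_apply, smul_eq_mul]
    cases x i <;> simp
  rw [this]
  exact Submodule.add_mem _ (const_mem _ _) (Submodule.smul_mem _ _ (coord_mem i))

omit [Fintype V] [Fintype W] in
/-- substitution -/
theorem comp_mem (σ : (W → Bool) → (V → Bool))
    (hσ : ∀ v, (fun y => (bK (σ y v) : K)) ∈ LD K W 1) {f : (V → Bool) → K} {d : ℕ}
    (hf : f ∈ LD K V d) : (fun y => f (σ y)) ∈ LD K W d := by
  refine Submodule.span_induction (p := fun f _ => (fun y => f (σ y)) ∈ LD K W d) ?_ ?_ ?_ ?_ hf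
  · rintro f ⟨B, hB, rfl⟩
    have h1 : (fun y => mono B (σ y)) = ∏ v ∈ B, (fun y => (bK (σ y v) : K)) := by
      funext y
      rw [Finset.prod_apply]
      rfl
    rw [h1]
    have h2 := prod_mem' B (fun v y => (bK (σ y v) : K)) (fun _ => 1) fun v _ => hσ v
    refine LD_mono ?_ h2
    simpa using hB
  · exact Submodule.zero_mem _
  · intro a b _ _ ha hb
    exact Submodule.add_mem _ ha hb
  · intro c a _ ha
    exact Submodule.smul_mem _ c ha

end Pool.Agent.Helper89K9.MO.Inv
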