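import Pool.Agent.Helper89K9.MC.Stm2
import Pool.Agent.Helper89K9.MO.Inv

/-!
# Project MO: online matrix-vector multiplication with memory of low degree modulo an odd number

The statements of project MC for any odd modulus `p` instead of an odd prime.
-/

set_option autoImplicit false

namespace Pool.Agent.Helper89K9.MO

open Finset
open Pool.Agent.Helper89K9.MO.Inv (LD)
open Pool.Agent.Helper89K9.MC
open Pool.Agent.TH163.AC2 (Alg coord toM gm lenE rightE mavg)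
open Pool.Agent.H699R2.OMV (Prog Vec Mat IsProb before avg)

/-- **DROP.** The sum of a polynomial of degree `d + 1` over `p` points which agree in the coordinates
in `I`, as a function of the common values of these coordinates, has degree at most `d`. -/
def S_DROP : Prop :=
  ∀ (p : ℕ) [NeZero p] (V : Type) [Fintype V] [DecidableEq V] (d : ℕ)
    (Q : (V → Bool) → ZMod p), Q ∈ LD (ZMod p) V (d + 1) →
    ∀ (x : Fin p → V → Bool) (I : Finset V), (∀ i ∈ I, ∀ j k, x j i = x k i) →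
    (fun z : V → Bool => ∑ j, Q (fun i => if i ∈ I then xor (x j i) (z i) else x j i)) ∈
      LD (ZMod p) V d

/-- **COR** (Bourgain; Green, Roy and Straubing). -/
def S_COR : Prop :=
  ∀ (p : ℕ) [NeZero p], Odd p → ∀ (V : Type) [Fintype V] [DecidableEq V] (d : ℕ)
    (Q : (V → Bool) → ZMod p), Q ∈ LD (ZMod p) V d → ∀ U : Finset V,
    ‖∑ x, chi U x * ZMod.stdAddChar (Q x)‖ ≤
      2 ^ Fintype.card V * (1 - 1 / lam p d) ^ U.card

/-- **TREE.** A program of `τ` probes to cells, whose contents are determined by `s` functions in the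
space `L`, does not help against a weight `φ` which is uncorrelated with the space `L`. -/
def S_TREE : Prop :=
  ∀ (p : ℕ) [NeZero p] (X A W O : Type) [Fintype X] (L : Submodule (ZMod p) (X → ZMod p))
    (s : ℕ) (m : X → A → W)
    (_ : ∀ a, ∃ P : Fin s → X → ZMod p, (∀ j, P j ∈ L) ∧
      ∀ x x', (∀ j, P j x = P j x') → m x a = m x' a)
    (g : O → ℂ) (_ : ∀ o, ‖g o‖ ≤ 1) (B : ℝ) (T : Prog A W O) (τ : ℕ) (φ : X → ℂ)
    (_ : ∀ Q ∈ L, ‖∑ x, φ x * ZMod.stdAddChar (Q x)‖ ≤ B),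
    ‖∑ x, (if (T.addrs (m x)).length ≤ τ then φ x * g (T.out (m x)) else 0)‖ ≤
      ((p : ℝ) ^ s) ^ τ * B

/-- **HIST.** -/
def S_HIST : Prop :=
  ∀ (p : ℕ) [NeZero p] (n : ℕ) (G : (Mat n)ˣ) (B : Fin n → (Mat n)ˣ) (h : List (Vec n))
    (v : Vec n), Good B h v → ∀ (S : Finset (Fin n)) (y : List (Vec n)) (D : ℕ) (b : ℝ),
    0 ≤ b → b ≤ 1 →
    (∀ Q ∈ LD (ZMod p) (Fin n × Fin n) D, ∀ U : Finset (Fin n × Fin n),
      ‖∑ x, chi U x * ZMod.stdAddChar (Q x)‖ ≤ 2 ^ (n * n) * b ^ U.card) →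
    ∀ k : ℕ, 16 * k ≤ n * S.card → ∀ Q ∈ LD (ZMod p) (Fin n × Fin n) D,
      ‖∑ x, (if h.map (toM G B x).mulVec = y then sgn S (gm B x v) else 0) *
        ZMod.stdAddChar (Q x)‖ ≤ 2 ^ (n * n) * b ^ k

open Classical in
/-- **SUCY.** (`Helper41K9.MC.succ` for given earlier answers.) -/
def S_SUCY : Prop :=
  ∀ (p : ℕ) [NeZero p] (n w : ℕ) (A : Type) (G : (Mat n)ˣ) (B : Fin n → (Mat n)ˣ)
    (h : List (Vec n)) (v : Vec n), Good B h v → ∀ (ys : List (Vec n)),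
    ∀ (D s τ : ℕ) (b : ℝ), 0 ≤ b → b ≤ 1 →
    (∀ Q ∈ LD (ZMod p) (Fin n × Fin n) D, ∀ U : Finset (Fin n × Fin n),
      ‖∑ x, chi U x * ZMod.stdAddChar (Q x)‖ ≤ 2 ^ (n * n) * b ^ U.card) →
    ∀ (m : Mat n → A → Fin w → Bool) (T : Prog A (Fin w → Bool) (Vec n)),
    (∀ a, ∃ P : Fin s → (Fin n × Fin n → Bool) → ZMod p,
      (∀ j, P j ∈ LD (ZMod p) (Fin n × Fin n) D) ∧
      ∀ x x', (∀ j, P j x = P j x') → m (toM G B x) a = m (toM G B x') a) →
    ((univ.filter fun M : Mat n => h.map M.mulVec = ys ∧ T.out (m M) = M.mulVec v ∧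
      (T.addrs (m M)).length ≤ τ).card : ℝ) ≤
      (univ.filter fun M : Mat n => h.map M.mulVec = ys).card / 2 ^ (n / 8) +
        2 ^ (n * n) * (((p : ℝ) ^ s) ^ τ * b ^ (n * n / 64))

/-- **ONEY.** For given coins and earlier vectors, averaged over the next vector. -/
def S_ONEY : Prop :=
  ∀ (p : ℕ) [NeZero p], Odd p → ∀ (n w : ℕ) (Ω A : Type) (alg : Alg n Ω A w) (D s e τ : ℕ),
    PolyMemY p alg D s e → 256 ≤ n → ∀ (ω : Ω) (h : List (Vec n)), 256 * h.length ≤ n →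
    ∀ β : ℝ, 1 / 2 ^ (n / 4) + 2 ^ e * (1 / 2 ^ (n / 8) + 2 ^ (n * h.length) *
      ((p : ℝ) ^ s) ^ τ * (1 - 1 / lam p D) ^ (n * n / 64)) ≤ β →
    (2 : ℝ) ^ n * (-((τ + 1 : ℝ) * β)) ≤
      ∑ v, (lenE alg ω h v - (τ + 1 : ℝ) * rightE alg ω h v)

/-- **FINY.** -/
def S_FINY : Prop :=
  ∀ (n p D s e : ℕ) [NeZero p], Odd p → 3 ≤ p → 1 ≤ s → 256 * lam p D ≤ n → 32 * e ≤ n →
    ∀ (Ω A : Type) [Fintype Ω] (w : ℕ) (alg : Alg n Ω A w) (μ : Ω → ℝ), IsProb μ →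
    ∀ γ : ℝ, 1 / (2 : ℝ) ^ (n / 16) ≤ γ → PolyMemY p alg D s e →
    (alg.Solves μ γ ∨ alg.Right μ γ) →
    γ * (n : ℝ) ^ 3 ≤ 2 ^ 17 * lam p D ^ 2 * (s * Real.logb 2 p) *
      avg (fun M vs => ∑ ω, μ ω * ∑ q, ((alg.probes ω M vs q).length : ℝ))

end Pool.Agent.Helper89K9.MO
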