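import Pool.Agent.Helper89K9.MC.Fin
import Pool.Agent.Helper89K9.MO.Stm

/-!
# The theorem, version 2, from the statements ONEY, AVG and NUM
-/

set_option autoImplicit false

namespace Pool.Agent.Helper89K9.MO

open Pool.Agent.Helper89K9.MC

open Finset
open Pool.Agent.TH163.AC2 (Alg coord toM gm lenE rightE mavg)
open Pool.Agent.H699R2.OMV (Prog Vec Mat IsProb before avg)


open FinL

theorem finy (one : S_ONEY) (av : S_AVG) (num : S_NUM) : S_FINY := by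
  intro n p D s e hpf hp2 hp3 hs hn he Ω A _ w alg μ hμ γ hγ hPM hR
  have hR' := right_of alg μ hR
  have hl1 := lam_pos (show 1 ≤ p by omega) D
  obtain ⟨l, hl⟩ : ∃ l : ℝ, l = lam p D := ⟨_, rfl⟩
  obtain ⟨N, hN⟩ : ∃ N : ℝ, N = (n : ℝ) := ⟨_, rfl⟩
  obtain ⟨L, hL⟩ : ∃ L : ℝ, L = s * Real.logb 2 p := ⟨_, rfl⟩
  rw [← hl] at hl1 hn
  rw [← hN] at hn
  rw [← hl, ← hN, ← hL]
  have hN256 : (256 : ℝ) ≤ N := by linarith
  have hn256 : 256 ≤ n := by
    rw [hN] at hN256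
    exact_mod_cast hN256
  have hlog : 1 ≤ Real.logb 2 p := by
    have h1 : Real.logb 2 2 = 1 := Real.logb_self_eq_one (by norm_num)
    rw [← h1]
    apply Real.logb_le_logb_of_le (by norm_num) (by norm_num)
    exact_mod_cast (show 2 ≤ p by omega)
  have hs1 : (1 : ℝ) ≤ s := by exact_mod_cast hs
  have hL1 : 1 ≤ L := by rw [hL]; nlinarith
  have hγ0 : 0 < γ := lt_of_lt_of_le (by positivity) hγ
  obtain ⟨τ, hτ⟩ : ∃ τ : ℕ, τ = ⌊N ^ 2 / (256 * l * L)⌋₊ := ⟨_, rfl⟩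
  obtain ⟨q, hq⟩ : ∃ q : ℕ, q = ⌊N / (256 * l)⌋₊ := ⟨_, rfl⟩
  have hq1 : (q : ℝ) ≤ N / (256 * l) := by
    rw [hq]
    exact Nat.floor_le (by positivity)
  have hq2 : N / (256 * l) ≤ q + 1 := by
    rw [hq]
    exact (Nat.lt_floor_add_one _).le
  have hτ1 : (τ : ℝ) ≤ N ^ 2 / (256 * l * L) := by
    rw [hτ]
    exact Nat.floor_le (by positivity)
  have hτ2 : N ^ 2 / (256 * l * L) ≤ τ + 1 := by
    rw [hτ]
    exact (Nat.lt_floor_add_one _).le
  have hq3 : 256 * l * q ≤ N := by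
    rw [le_div_iff₀ (by positivity)] at hq1
    linarith
  have hq4 : 256 * q ≤ n := by
    have h1 : (256 : ℝ) * q ≤ N := by
      have : (0 : ℝ) ≤ q := Nat.cast_nonneg q
      nlinarith
    rw [hN] at h1
    exact_mod_cast h1
  have hβ : ∀ k : ℕ, k ≤ q → 1 / 2 ^ (n / 4) + 2 ^ e * (1 / 2 ^ (n / 8) + 2 ^ (n * k) *
      ((p : ℝ) ^ s) ^ τ * (1 - 1 / lam p D) ^ (n * n / 64)) ≤ (1 / 2 ^ (n / 16) : ℝ) / 2 := by
    intro k hk
    refine num n p D s e k τ hp3 (by rw [← hl, ← hN]; exact hn) he ?_ ?_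
    · rw [← hl, ← hN]
      have : (k : ℝ) ≤ q := by exact_mod_cast hk
      have h2 : 256 * l * k ≤ 256 * l * q := mul_le_mul_of_nonneg_left this (by positivity)
      linarith
    · rw [← hl, ← hN, ← hL]
      rw [le_div_iff₀ (by positivity)] at hτ1
      linarith
  have hmain := av n w Ω A alg μ hμ γ hR' (q + 1) (by omega) (τ + 1 : ℝ)
    ((1 / 2 ^ (n / 16) : ℝ) / 2) (by positivity) (by
      intro ω h hh
      exact one p hp2 n w Ω A alg D s e τ hPM hn256 ω h (by omega) _ (hβ h.length (by omega)))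
  obtain ⟨T, hT⟩ : ∃ T : ℝ, T = avg (fun M vs => ∑ ω, μ ω *
      ∑ q, ((alg.probes ω M vs q).length : ℝ)) := ⟨_, rfl⟩
  rw [← hT] at hmain ⊢
  have h1 : γ / 2 ≤ γ - (1 / 2 ^ (n / 16) : ℝ) / 2 := by linarith
  have h2 : N ^ 2 / (256 * l * L) * (γ / 2) ≤ (τ + 1 : ℝ) * (γ - (1 / 2 ^ (n / 16) : ℝ) / 2) :=
    mul_le_mul hτ2 h1 (by positivity) (by positivity)
  have h3 : N / (256 * l) * (N ^ 2 / (256 * l * L) * (γ / 2)) ≤
      ((q + 1 : ℕ) : ℝ) * ((τ + 1 : ℝ) * (γ - (1 / 2 ^ (n / 16) : ℝ) / 2)) := by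
    push_cast
    exact mul_le_mul hq2 h2 (by positivity) (by positivity)
  have h4 := h3.trans hmain
  have h5 : N / (256 * l) * (N ^ 2 / (256 * l * L) * (γ / 2)) =
      γ * N ^ 3 / (2 ^ 17 * l ^ 2 * L) := by
    field_simp
    ring
  rw [h5, div_le_iff₀ (by positivity)] at h4
  linarith

end Pool.Agent.Helper89K9.MO
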