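import Pool.Agent.Helper89K9.MO.Stm2
import Pool.Agent.Helper89K9.MA.Asm4

/-!
# Project MO: one vector, the choice of the parameters and the assembly, any odd modulus
-/

set_option autoImplicit false

namespace Pool.Agent.Helper89K9.MO

open Finset
open Pool.Agent.Helper89K9.MO.Inv (LD bK)
open H746R3.Inv (Circuit Kind)
open Pool.Agent.W905.TM (Acc S_RS)
open Pool.Agent.TH163.AC2 (Alg lenE rightE mavg)
open Pool.Agent.H699R2.OMV (Prog Vec Mat IsProb before)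
open Pool.Agent.Helper89K9.MC (lam)
open Pool.Agent.Helper89K9.MA (S_PG1 S_PG2 S_PG3 S_VIR S_AVG S_NUM1 S_CO2 S_CR4 S_NM4 S_CORE2 S_RP S_PT
  S_DES nRight PolyMem2 AC0Mem AC0pMem Sep pmg pm mbits RightOn rightOn_of_solves fin2v fin3v)
open Pool.Agent.Helper89K9.MA.OneL Pool.Agent.Helper89K9.MA.FinL

open Classical in
theorem one1o (pg1 : S_PG1) (pg2 : S_PG2) (pgo : S_PGO) (vir : S_VIR) (core1 : S_CORE1)
    (p : ℕ) [hpf : NeZero p] (hp2 : Odd p) (n K w : ℕ) (Ω A : Type) (alg : Alg n Ω A w)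
    (D s e τ : ℕ) (hPM : PolyMem2 p alg D s e) (ω : Ω) (h : List (Vec n)) (v : Vec n)
    (π : Fin n → Option (Fin K)) (hsep : Sep π h v) :
    (nRight alg ω h τ v : ℝ) ≤ 2 ^ (n * n) * (2 ^ e * (1 / 2 ^ (n / 8) +
      ((p : ℝ) ^ s) ^ τ * (1 - 1 / lam p D) ^ (n * K / 4))) := by
  choose G f hP using fun ys => hPM ω h ys
  apply one_gen pg1 pg2 alg ω h τ v π hsep _ G f
  intro X
  obtain ⟨mm, hmm, hmP⟩ := vir p (Fin n × Fin K → Bool) A (Fin w → Bool) (Fin e → Bool)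
    (LD (ZMod p) (Fin n × Fin K) D : Set ((Fin n × Fin K → Bool) → ZMod p)) s
    (fun z => alg.mem ω h (pmg π h G X z)) (fun z => f (h.map X.mulVec) (pmg π h G X z)) (by
      intro a y
      obtain ⟨P, hPd, hPm⟩ := hP (h.map X.mulVec) a y
      refine ⟨fun j z => MvPolynomial.eval (fun c => if mbits
        (pm π ((G (h.map X.mulVec) : Mat n) * X) z) c then (1 : ZMod p) else 0) (P j),
        fun j => ?_, ?_⟩
      · exact pgo n K π _ p D (P j) (hPd j)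
      · intro x x' hx hx' hj
        obtain ⟨ha, -, hc⟩ := pg1 n K π h v hsep G X x
        obtain ⟨ha', -, hc'⟩ := pg1 n K π h v hsep G X x'
        apply hPm _ _ ha ha' hx hx'
        intro j
        rw [hc, hc']
        exact hj j)
  refine ⟨mm, fun z => (hmm z).symm, ?_⟩
  intro y T u
  have := core1 p hp2 n K A (Fin w → Bool) D s τ (mm y) T u (hmP y)
  refine le_trans (le_of_eq ?_) this
  congr 1

theorem fin1o (pg1 : S_PG1) (pg2 : S_PG2) (pgo : S_PGO) (vir : S_VIR) (core1 : S_CORE1)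
    (avg : S_AVG) (num1 : S_NUM1) {n K L : ℕ} (hn256 : 256 ≤ n)
    (vs : Fin n → Vec n) (π : Fin n → Fin n → Option (Fin K)) (hL : L ≤ n)
    (hsep : ∀ q : Fin n, q.val < L → Sep (π q) (before vs q) (vs q))
    (p : ℕ) [hpf : NeZero p] (hp2 : Odd p) (hp3 : 3 ≤ p) (Ω A : Type) [Fintype Ω] (w : ℕ) (alg : Alg n Ω A w)
    (μ : Ω → ℝ) (hμ : IsProb μ) (γ : ℝ) (hR : RightOn alg vs μ γ) :
    ∀ D s e : ℕ, 1 ≤ s → lam p D ≤ K → 32 * e ≤ n → 1 / 2 ^ (n / 16) ≤ γ →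
      PolyMem2 p alg D s e →
      γ * (L * (n * K)) ≤ 16 * lam p D * (s * Real.logb 2 p) *
          mavg (fun M => ∑ ω, μ ω * ∑ q, ((alg.probes ω M vs q).length : ℝ)) := by
  intro D s e hs1 hlam he hγ hPM
  have hl1 := lam_pos (show 1 ≤ p by omega) D
  have hlg : 0 < Real.logb 2 p :=
    Real.logb_pos (by norm_num) (by exact_mod_cast (by omega : 1 < p))
  have hs' : (0 : ℝ) < s := by exact_mod_cast hs1
  obtain ⟨c, hc⟩ : ∃ c : ℝ, c = 8 * lam p D * (s * Real.logb 2 p) := ⟨_, rfl⟩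
  have hc0 : 0 < c := by rw [hc]; positivity
  obtain ⟨τ, hτ⟩ : ∃ τ : ℕ, τ = ⌊((n : ℝ) * K) / c⌋₊ := ⟨_, rfl⟩
  have h1 : c * τ ≤ (n : ℝ) * K := by
    have := Nat.floor_le (show (0 : ℝ) ≤ ((n : ℝ) * K) / c by positivity)
    rw [← hτ, le_div_iff₀ hc0] at this
    linarith
  have h2 : (n : ℝ) * K ≤ c * (τ + 1) := by
    have := (Nat.lt_floor_add_one (((n : ℝ) * K) / c)).le
    rw [← hτ, div_le_iff₀ hc0] at this
    linarith
  have hγ0 : 0 ≤ γ := le_trans (by positivity) hγ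
  have hnum := num1 n K p D s e τ hn256 hp3 hlam he (by
    refine le_trans (le_of_eq ?_) h1
    rw [hc]
    ring)
  obtain ⟨β, hβ⟩ : ∃ β : ℝ, β = 2 ^ e * (1 / 2 ^ (n / 8) + ((p : ℝ) ^ s) ^ τ *
    (1 - 1 / lam p D) ^ (n * K / 4)) := ⟨_, rfl⟩
  rw [← hβ] at hnum
  have hav := avg n w Ω A alg μ hμ vs γ hR L hL τ β (by
    intro ω q hq
    rw [hβ]
    exact one1o pg1 pg2 pgo vir core1 p hp2 n _ w Ω A alg D s e τ hPM ω (before vs q) (vs q) (π q) (hsep q hq))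
  have := last (Nat.cast_nonneg L) (Nat.cast_nonneg τ) hγ0 (by linarith) hc0 h2 hav
  rw [hc] at this
  refine this.trans (le_of_eq ?_)
  ring

theorem asm3 (pt : S_PT) (des : S_PT → S_DES) (rs : Pool.Agent.W905.TM.S_RS)
    (pg1 : S_PG1) (pg2 : S_PG2) (pg3 : S_PG3) (pgo : S_PGO) (vir : S_VIR) (core1 : S_CORE1) (core2 : S_CORE2)
    (co2 : S_CO2) (cr4 : S_CR4) (nm4 : S_NM4) (avg : S_AVG) (num1 : S_NUM1) (rp : S_RP) (t n : ℕ) (ht : 2 ≤ t) (hn : 256 ≤ n)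
    (hn2 : 2 ^ t ≤ n) :
    ∃ vs : Fin n → Vec n, ∀ (Ω A : Type) [Fintype Ω] (w : ℕ) (alg : Alg n Ω A w) (μ : Ω → ℝ),
      IsProb μ → ∀ γ : ℝ, (alg.Solves μ γ ∨ RightOn alg vs μ γ) →
      (∀ p D s e : ℕ, Odd p → 3 ≤ p → 1 ≤ s → (2 ^ t * (p * 2 ^ (p - 1)) ^ D) ^ 2 ≤ n →
        32 * e ≤ n → 1 / 2 ^ (n / 16) ≤ γ → PolyMem2 p alg D s e →
        γ * (n : ℝ) ^ (3 - 1 / (t : ℝ)) ≤
          8 * (8 * t) ^ t * ((p * 2 ^ (p - 1)) ^ D * (s * Real.logb 2 p)) *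
            mavg (fun M => ∑ ω, μ ω * ∑ q, ((alg.probes ω M vs q).length : ℝ))) ∧
      (∀ [Fintype A] (d k r e : ℕ), 1 ≤ w → 1 ≤ r → n ≤ 2 ^ k → 1 / 2 ^ k ≤ γ →
        Fintype.card A * w ≤ 2 ^ k →
        (2 ^ t * (24 * (r * (e + 3 * k + d + 2))) ^ (d + 1)) ^ 2 ≤ n → AC0Mem alg d k r e →
        γ * (n : ℝ) ^ (3 - 1 / (t : ℝ)) ≤
          (8 * t) ^ t * (24 * (r * (e + 3 * k + d + 2))) ^ (d + 1) *
            (w * mavg (fun M => ∑ ω, μ ω * ∑ q, ((alg.probes ω M vs q).length : ℝ)))) ∧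
      (∀ [Fintype A] (p d k r e : ℕ), p.Prime → p ≠ 2 → 1 ≤ w → 24 * (k + e + 3) ≤ n →
        1 / 2 ^ k ≤ γ → Fintype.card A * w ≤ 2 ^ k → AC0pMem p alg d k r e →
        γ * (n : ℝ) ^ (5 / 2 - 1 / (2 * t : ℝ)) ≤
          2 ^ 10 * (8 * t) ^ t * ((3 * k + e + 2) * p + r) ^ d *
            (w * mavg (fun M => ∑ ω, μ ω * ∑ q, ((alg.probes ω M vs q).length : ℝ)))) := by
  obtain ⟨a, ha, han, hr1, hr2, hr3⟩ := rp n t (by omega) hn2
  obtain ⟨hL, vs, π, hsep⟩ := des pt a t n ha (by omega) han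
  obtain ⟨L, hLdef⟩ : ∃ L : ℕ, L = ((2 ^ a - 2) / t + 1) ^ t := ⟨_, rfl⟩
  have hLr : ((((2 ^ a - 2) / t + 1 : ℕ) : ℝ)) ^ t = (L : ℝ) := by
    rw [hLdef]
    push_cast
    rfl
  rw [← hLdef] at hL hsep
  rw [hLr] at hr1 hr2
  have hKr : (((2 ^ a) ^ (t - 1) : ℕ) : ℝ) = (2 ^ a) ^ (t - 1) := by
    push_cast
    rfl
  have hK1 : 1 ≤ (2 ^ a) ^ (t - 1) := Nat.one_le_iff_ne_zero.2 (by positivity)
  have hKn : (2 ^ a) ^ (t - 1) ≤ n :=
    (Nat.pow_le_pow_right (Nat.one_le_iff_ne_zero.2 (by positivity)) (by omega)).trans han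
  refine ⟨vs, fun Ω A _ w alg μ hμ γ hR => ?_⟩
  have hR' := rightOn_of_solves alg vs μ γ hR
  refine ⟨?_, ?_, ?_⟩
  · intro p D s e hp hp3 hs hlam he hγ hPM
    haveI : NeZero p := ⟨by omega⟩
    have hγ0 : 0 ≤ γ := le_trans (by positivity) hγ
    have hl1 : 1 ≤ lam p D := lam_pos (show 1 ≤ p by omega) D
    have h0 : lam p D ≤ (((2 ^ a) ^ (t - 1) : ℕ) : ℝ) := by
      rw [hKr]
      apply hr3 ht _ hl1
      have : (((2 ^ t * (p * 2 ^ (p - 1)) ^ D) ^ 2 : ℕ) : ℝ) ≤ n := by exact_mod_cast hlam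
      push_cast at this
      exact this
    have h1 := fin1o pg1 pg2 pgo vir core1 avg num1 hn vs π hL hsep p hp hp3 Ω A w alg μ hμ γ hR' D s e hs h0 he hγ hPM
    rw [hKr] at h1
    have h2 := mul_le_mul_of_nonneg_left hr1 hγ0
    have h3 : (0 : ℝ) ≤ (8 * t) ^ t / 2 := by positivity
    have h4 := mul_le_mul_of_nonneg_left h1 h3
    unfold Pool.Agent.Helper89K9.MC.lam at h4
    calc γ * (n : ℝ) ^ (3 - 1 / (t : ℝ)) ≤ _ := h2
      _ = (8 * t) ^ t / 2 * (γ * (L * (n * (2 ^ a) ^ (t - 1)))) := by ring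
      _ ≤ _ := h4
      _ = _ := by ring
  · intro _ d k r e hw hr hnk hγ hAw hlam hDM
    have hγ0 : 0 ≤ γ := le_trans (by positivity) hγ
    have h0 : (24 * (r * (e + 3 * k + d + 2))) ^ (d + 1) ≤ (2 ^ a) ^ (t - 1) := by
      have h00 : (((24 * (r * (e + 3 * k + d + 2))) ^ (d + 1) : ℕ) : ℝ) ≤ (2 ^ a) ^ (t - 1) := by
        apply hr3 ht
        · have : 1 ≤ (24 * (r * (e + 3 * k + d + 2))) ^ (d + 1) := by
            have hr0 : 0 < r := hr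
            exact Nat.one_le_iff_ne_zero.2 (by positivity)
          exact_mod_cast this
        · exact_mod_cast hlam
      rw [← hKr] at h00
      exact_mod_cast h00
    have h1 := fin3v pg1 pg2 pg3 co2 cr4 nm4 avg hKn vs π hL hsep Ω A w alg μ hμ γ hR' d k r e
      hw hr hnk hγ hAw h0 hDM
    rw [hKr] at h1
    have h2 := mul_le_mul_of_nonneg_left hr1 hγ0
    have h3 : (0 : ℝ) ≤ (8 * t) ^ t / 2 := by positivity
    have h4 := mul_le_mul_of_nonneg_left h1 h3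
    calc γ * (n : ℝ) ^ (3 - 1 / (t : ℝ)) ≤ _ := h2
      _ = (8 * t) ^ t / 2 * (γ * (L * (n * (2 ^ a) ^ (t - 1)))) := by ring
      _ ≤ _ := h4
      _ = _ := by ring
  · intro _ p d k r e hp hp2 hw hk hγ hAw hCM
    haveI : Fact p.Prime := ⟨hp⟩
    have hγ0 : 0 ≤ γ := le_trans (by positivity) hγ
    have h1 := fin2v rs pg1 pg2 pg3 core2 avg hK1 vs π hL hsep p hp2 Ω A w alg μ hμ γ hR' d k r e
      hw hk hγ hAw hCM
    rw [hKr] at h1
    have h2 := mul_le_mul_of_nonneg_left hr2 hγ0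
    have h3 : (0 : ℝ) ≤ (8 * t) ^ t := by positivity
    have h4 := mul_le_mul_of_nonneg_left h1 h3
    calc γ * (n : ℝ) ^ (5 / 2 - 1 / (2 * t : ℝ)) ≤ _ := h2
      _ = (8 * t) ^ t * (γ * (L * (n * Real.sqrt ((2 ^ a) ^ (t - 1))))) := by ring
      _ ≤ _ := h4
      _ = _ := by ring

end Pool.Agent.Helper89K9.MO
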