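import Pool.Agent.Helper89K9.MO.Stm
import Pool.Agent.Helper89K9.MC.One

/-!
# Project MO, version 2: for given coins and earlier vectors, averaged over the next vector
-/

set_option autoImplicit false

namespace Pool.Agent.Helper89K9.MO

open Pool.Agent.Helper89K9.MC

open Finset
open Pool.Agent.Helper89K9.MO.Inv (LD bK)
open Pool.Agent.TH163.AC2 (Alg coord toM gm lenE rightE mavg matEquiv coord_toM)
open Pool.Agent.H699R2.OMV (Prog Vec Mat IsProb before avg)

open OneL

namespace OneYL

open Classical in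
/-- the memory for given answers and side information -/
lemma vir' (p : ℕ) (X A W : Type) (L : Set (X → ZMod p)) (s : ℕ) (m : X → A → W) (R : X → Prop)
    (h0 : ∀ a : A, ∃ P : Fin s → X → ZMod p, (∀ j, P j ∈ L) ∧
      ∀ x x', R x → R x' → (∀ j, P j x = P j x') → m x a = m x' a) [Nonempty X] :
    ∃ mm : X → A → W, (∀ x, R x → mm x = m x) ∧
      ∀ a, ∃ P : Fin s → X → ZMod p, (∀ j, P j ∈ L) ∧
        ∀ x x', (∀ j, P j x = P j x') → mm x a = mm x' a := by
  choose P hPL hPm using h0
  obtain ⟨x0⟩ := ‹Nonempty X›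
  let q : A → (Fin s → ZMod p) → W := fun a z =>
    if hz : ∃ x, R x ∧ ∀ j, P a j x = z j then m hz.choose a else m x0 a
  refine ⟨fun x a => q a (fun j => P a j x), ?_, fun a => ⟨P a, hPL a, ?_⟩⟩
  · intro x hx
    funext a
    have hz : ∃ x', R x' ∧ ∀ j, P a j x' = P a j x := ⟨x, hx, fun _ => rfl⟩
    show q a (fun j => P a j x) = m x a
    simp only [q]
    rw [dif_pos hz]
    exact hPm a _ _ hz.choose_spec.1 hx hz.choose_spec.2
  · intro x x' hxx
    show q a (fun j => P a j x) = q a (fun j => P a j x')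
    have : (fun j => P a j x) = fun j => P a j x' := funext hxx
    rw [this]

end OneYL

open OneYL

open Classical in
theorem oney (cor : S_COR) (sucy : S_SUCY) (good : S_GOOD)
    (ev : ∀ (p : ℕ) [NeZero p] (V : Type) [Fintype V] [DecidableEq V]
      (P : MvPolynomial V (ZMod p)) (D : ℕ), P.totalDegree ≤ D →
      (fun x : V → Bool => MvPolynomial.eval (fun c => (bK (x c) : ZMod p)) P) ∈ LD (ZMod p) V D) :
    S_ONEY := by
  intro p hpf hp2 n w Ω A alg D s e τ hPM hn ω h hh β hβ
  have hp1 : 1 ≤ p := Nat.one_le_iff_ne_zero.2 (NeZero.ne p)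
  choose G B f hP using fun ys => hPM ω h ys
  obtain ⟨b, hb⟩ : ∃ b : ℝ, b = 1 - 1 / lam p D := ⟨_, rfl⟩
  have hl1 := lam_pos hp1 D
  have hb0 : 0 ≤ b := by
    rw [hb, sub_nonneg, div_le_one (by linarith)]
    exact hl1
  have hb1 : b ≤ 1 := by
    rw [hb]
    have : 0 ≤ 1 / lam p D := by positivity
    linarith
  rw [← hb] at hβ
  have hcor : ∀ Q ∈ LD (ZMod p) (Fin n × Fin n) D, ∀ U : Finset (Fin n × Fin n),
      ‖∑ x, chi U x * ZMod.stdAddChar (Q x)‖ ≤ 2 ^ (n * n) * b ^ U.card := by
    intro Q hQ U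
    have := cor p hp2 (Fin n × Fin n) D Q hQ U
    rw [Fintype.card_prod, Fintype.card_fin, ← hb] at this
    exact this
  obtain ⟨K, hK⟩ : ∃ K : ℝ, K = ((p : ℝ) ^ s) ^ τ * b ^ (n * n / 64) := ⟨_, rfl⟩
  have hK0 : 0 ≤ K := by rw [hK]; positivity
  have hβ' : 1 / 2 ^ (n / 4) + 2 ^ e * (1 / 2 ^ (n / 8) + 2 ^ (n * h.length) * K) ≤ β := by
    rw [hK, ← mul_assoc]
    exact hβ
  -- the memory for given answers and side information
  have hmem : ∀ (ys : List (Vec n)) (y : Fin e → Bool), ∃ mm : Mat n → A → Fin w → Bool,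
      (∀ M, h.map M.mulVec = ys → f ys M = y → mm M = alg.mem ω h M) ∧
      ∀ a, ∃ P : Fin s → (Fin n × Fin n → Bool) → ZMod p,
        (∀ j, P j ∈ LD (ZMod p) (Fin n × Fin n) D) ∧
        ∀ x x', (∀ j, P j x = P j x') → mm (toM (G ys) (B ys) x) a =
          mm (toM (G ys) (B ys) x') a := by
    intro ys y
    obtain ⟨mm, h1, h2⟩ := vir' p (Fin n × Fin n → Bool) A (Fin w → Bool)
      (LD (ZMod p) (Fin n × Fin n) D : Set ((Fin n × Fin n → Bool) → ZMod p)) s
      (fun x => alg.mem ω h (toM (G ys) (B ys) x))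
      (fun x => h.map (toM (G ys) (B ys) x).mulVec = ys ∧ f ys (toM (G ys) (B ys) x) = y) (by
        intro a
        obtain ⟨P, hPd, hPm⟩ := hP ys a y
        refine ⟨fun j x => MvPolynomial.eval (fun c => (bK (x c) : ZMod p)) (P j),
          fun j => ev p _ (P j) D (hPd j), ?_⟩
        rintro x x' ⟨hx1, hx2⟩ ⟨hx1', hx2'⟩ hj
        apply hPm _ _ hx1 hx1' hx2 hx2'
        intro j
        rw [coord_toM, coord_toM]
        exact hj j)
    have hx : ∀ M : Mat n, toM (G ys) (B ys) ((matEquiv (G ys) (B ys)).symm M) = M :=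
      fun M => (matEquiv (G ys) (B ys)).apply_symm_apply M
    have hx' : ∀ x, (matEquiv (G ys) (B ys)).symm (toM (G ys) (B ys) x) = x :=
      fun x => (matEquiv (G ys) (B ys)).symm_apply_apply x
    refine ⟨fun M => mm ((matEquiv (G ys) (B ys)).symm M), fun M hM1 hM2 => ?_, fun a => ?_⟩
    · have := h1 ((matEquiv (G ys) (B ys)).symm M) (by rw [hx]; exact ⟨hM1, hM2⟩)
      rw [hx] at this
      exact this
    · obtain ⟨P, hPL, hPm⟩ := h2 a
      refine ⟨P, hPL, fun x x' hj => ?_⟩
      show mm ((matEquiv (G ys) (B ys)).symm (toM (G ys) (B ys) x)) a =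
        mm ((matEquiv (G ys) (B ys)).symm (toM (G ys) (B ys) x')) a
      rw [hx', hx']
      exact hPm x x' hj
  choose mm hmm hmmP using hmem
  -- the answers
  obtain ⟨Y, hY⟩ : ∃ Y : Finset (List (Vec n)), Y =
    (univ : Finset (Fin h.length → Vec n)).image List.ofFn := ⟨_, rfl⟩
  have hmemY : ∀ M : Mat n, h.map M.mulVec ∈ Y := by
    intro M
    rw [hY, Finset.mem_image]
    refine ⟨fun i => M.mulVec (h.get i), Finset.mem_univ _, ?_⟩
    have h1 : h.map M.mulVec = (List.ofFn h.get).map M.mulVec := by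
      rw [List.ofFn_get]
    rw [h1, List.map_ofFn]
    rfl
  have hYcard : (Y.card : ℝ) ≤ 2 ^ (n * h.length) := by
    have h1 : Y.card ≤ 2 ^ (n * h.length) := by
      rw [hY]
      calc _ ≤ (univ : Finset (Fin h.length → Vec n)).card := Finset.card_image_le
        _ = 2 ^ (n * h.length) := by
          rw [Finset.card_univ, Fintype.card_fun, Fintype.card_fun, ZMod.card, Fintype.card_fin,
            Fintype.card_fin, pow_mul]
    exact_mod_cast h1
  obtain ⟨N, hN⟩ : ∃ N : List (Vec n) → ℝ, N = fun ys =>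
    ((univ.filter fun M : Mat n => h.map M.mulVec = ys).card : ℝ) := ⟨_, rfl⟩
  have hN0 : ∀ ys, 0 ≤ N ys := by
    intro ys
    rw [hN]
    positivity
  have hNsum : ∑ ys ∈ Y, N ys = 2 ^ (n * n) := by
    rw [hN, ← card_mat n]
    have := Finset.card_eq_sum_card_fiberwise (s := (univ : Finset (Mat n))) (t := Y)
      (f := fun M => h.map M.mulVec) (fun M _ => hmemY M)
    rw [Finset.card_univ] at this
    rw [this]
    push_cast
    rfl
  -- one vector
  have hone : ∀ v, ((Rv alg ω h τ v).card : ℝ) ≤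
      ∑ ys ∈ Y, N ys * (if ¬ Good (B ys) h v then 1 else 0) +
        2 ^ (n * n) * (2 ^ e * (1 / 2 ^ (n / 8) + 2 ^ (n * h.length) * K)) := by
    intro v
    have h1 : Rv alg ω h τ v ⊆ Y.biUnion (fun ys => univ.filter fun M : Mat n =>
        h.map M.mulVec = ys ∧ (alg.prog ω h ys v).out (alg.mem ω h M) = M.mulVec v ∧
          ((alg.prog ω h ys v).addrs (alg.mem ω h M)).length ≤ τ) := by
      intro M hM
      unfold Rv at hM
      rw [Finset.mem_filter] at hM
      rw [Finset.mem_biUnion]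
      refine ⟨h.map M.mulVec, hmemY M, ?_⟩
      rw [Finset.mem_filter]
      exact ⟨Finset.mem_univ _, rfl, hM.2⟩
    have h2 := (Finset.card_le_card h1).trans Finset.card_biUnion_le
    have h3 : ∀ ys, ((univ.filter fun M : Mat n =>
        h.map M.mulVec = ys ∧ (alg.prog ω h ys v).out (alg.mem ω h M) = M.mulVec v ∧
          ((alg.prog ω h ys v).addrs (alg.mem ω h M)).length ≤ τ).card : ℝ) ≤
        N ys * (if ¬ Good (B ys) h v then 1 else 0) +
          2 ^ e * (N ys / 2 ^ (n / 8) + 2 ^ (n * n) * K) := by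
      intro ys
      by_cases hg : Good (B ys) h v
      · rw [if_neg (not_not.2 hg), mul_zero, zero_add]
        have h4 : (univ.filter fun M : Mat n =>
            h.map M.mulVec = ys ∧ (alg.prog ω h ys v).out (alg.mem ω h M) = M.mulVec v ∧
            ((alg.prog ω h ys v).addrs (alg.mem ω h M)).length ≤ τ) ⊆
            (univ : Finset (Fin e → Bool)).biUnion (fun y => univ.filter fun M : Mat n =>
              h.map M.mulVec = ys ∧ (alg.prog ω h ys v).out (mm ys y M) = M.mulVec v ∧
              ((alg.prog ω h ys v).addrs (mm ys y M)).length ≤ τ) := by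
          intro M hM
          rw [Finset.mem_filter] at hM
          rw [Finset.mem_biUnion]
          refine ⟨f ys M, Finset.mem_univ _, ?_⟩
          rw [Finset.mem_filter, hmm ys (f ys M) M hM.2.1 rfl]
          exact hM
        have h5 := (Finset.card_le_card h4).trans Finset.card_biUnion_le
        have h6 : ∀ y : Fin e → Bool, ((univ.filter fun M : Mat n =>
              h.map M.mulVec = ys ∧ (alg.prog ω h ys v).out (mm ys y M) = M.mulVec v ∧
              ((alg.prog ω h ys v).addrs (mm ys y M)).length ≤ τ).card : ℝ) ≤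
              N ys / 2 ^ (n / 8) + 2 ^ (n * n) * K := by
          intro y
          have := sucy p n w A (G ys) (B ys) h v hg ys D s τ b hb0 hb1 hcor (mm ys y)
            (alg.prog ω h ys v) (hmmP ys y)
          rw [hK, hN]
          refine le_trans (le_of_eq ?_) (this.trans (le_of_eq ?_))
          · congr 1
          · congr 1
        calc ((univ.filter fun M : Mat n =>
            h.map M.mulVec = ys ∧ (alg.prog ω h ys v).out (alg.mem ω h M) = M.mulVec v ∧
            ((alg.prog ω h ys v).addrs (alg.mem ω h M)).length ≤ τ).card : ℝ) ≤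
            ∑ y : Fin e → Bool, ((univ.filter fun M : Mat n =>
              h.map M.mulVec = ys ∧ (alg.prog ω h ys v).out (mm ys y M) = M.mulVec v ∧
              ((alg.prog ω h ys v).addrs (mm ys y M)).length ≤ τ).card : ℝ) := by
              exact_mod_cast h5
          _ ≤ ∑ _y : Fin e → Bool, (N ys / 2 ^ (n / 8) + 2 ^ (n * n) * K) :=
              Finset.sum_le_sum fun y _ => h6 y
          _ = _ := by
              rw [Finset.sum_const, Finset.card_univ, Fintype.card_fun, Fintype.card_bool,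
                Fintype.card_fin, nsmul_eq_mul]
              push_cast
              ring
      · rw [if_pos hg, mul_one]
        have h4 : ((univ.filter fun M : Mat n =>
            h.map M.mulVec = ys ∧ (alg.prog ω h ys v).out (alg.mem ω h M) = M.mulVec v ∧
            ((alg.prog ω h ys v).addrs (alg.mem ω h M)).length ≤ τ).card : ℝ) ≤ N ys := by
          rw [hN]
          show _ ≤ ((univ.filter fun M : Mat n => h.map M.mulVec = ys).card : ℝ)
          have : (univ.filter fun M : Mat n =>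
            h.map M.mulVec = ys ∧ (alg.prog ω h ys v).out (alg.mem ω h M) = M.mulVec v ∧
            ((alg.prog ω h ys v).addrs (alg.mem ω h M)).length ≤ τ) ⊆
            univ.filter fun M : Mat n => h.map M.mulVec = ys := by
            intro M hM
            rw [Finset.mem_filter] at hM ⊢
            exact ⟨hM.1, hM.2.1⟩
          exact_mod_cast Finset.card_le_card this
        have h5 : 0 ≤ 2 ^ e * (N ys / 2 ^ (n / 8) + 2 ^ (n * n) * K) := by
          have := hN0 ys
          positivity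
        linarith
    have h4 : ((Rv alg ω h τ v).card : ℝ) ≤ ∑ ys ∈ Y, ((univ.filter fun M : Mat n =>
        h.map M.mulVec = ys ∧ (alg.prog ω h ys v).out (alg.mem ω h M) = M.mulVec v ∧
          ((alg.prog ω h ys v).addrs (alg.mem ω h M)).length ≤ τ).card : ℝ) := by
      exact_mod_cast h2
    refine h4.trans ((Finset.sum_le_sum fun ys _ => h3 ys).trans ?_)
    rw [Finset.sum_add_distrib]
    have h5 : ∑ ys ∈ Y, 2 ^ e * (N ys / 2 ^ (n / 8) + 2 ^ (n * n) * K) =
        2 ^ e * (2 ^ (n * n) / 2 ^ (n / 8) + Y.card * (2 ^ (n * n) * K)) := by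
      rw [← Finset.mul_sum, Finset.sum_add_distrib, ← Finset.sum_div, hNsum, Finset.sum_const,
        nsmul_eq_mul]
    rw [h5]
    have h6 : (2 : ℝ) ^ e * (2 ^ (n * n) / 2 ^ (n / 8) + Y.card * (2 ^ (n * n) * K)) ≤
        2 ^ (n * n) * (2 ^ e * (1 / 2 ^ (n / 8) + 2 ^ (n * h.length) * K)) := by
      have h7 : (Y.card : ℝ) * (2 ^ (n * n) * K) ≤ 2 ^ (n * h.length) * (2 ^ (n * n) * K) :=
        mul_le_mul_of_nonneg_right hYcard (by positivity)
      have h8 : (2 : ℝ) ^ e * (2 ^ (n * n) / 2 ^ (n / 8) + Y.card * (2 ^ (n * n) * K)) ≤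
          2 ^ e * (2 ^ (n * n) / 2 ^ (n / 8) + 2 ^ (n * h.length) * (2 ^ (n * n) * K)) :=
        mul_le_mul_of_nonneg_left (by linarith) (by positivity)
      refine h8.trans (le_of_eq ?_)
      ring
    linarith
  have hτ : (0 : ℝ) ≤ τ := Nat.cast_nonneg τ
  have h5 : ∀ v, -((τ + 1 : ℝ) * ((∑ ys ∈ Y, N ys * (if ¬ Good (B ys) h v then 1 else 0) +
        2 ^ (n * n) * (2 ^ e * (1 / 2 ^ (n / 8) + 2 ^ (n * h.length) * K))) / 2 ^ (n * n))) ≤
      lenE alg ω h v - (τ + 1 : ℝ) * rightE alg ω h v := by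
    intro v
    refine le_trans ?_ (diff_ge alg ω h τ v)
    apply neg_le_neg
    apply mul_le_mul_of_nonneg_left _ (by linarith)
    exact div_le_div_of_nonneg_right (hone v) (by positivity)
  refine le_trans ?_ (Finset.sum_le_sum fun v _ => h5 v)
  rw [Finset.sum_neg_distrib, ← Finset.mul_sum, ← Finset.sum_div, Finset.sum_add_distrib,
    Finset.sum_const, Finset.card_univ, Fintype.card_fun, ZMod.card, Fintype.card_fin,
    nsmul_eq_mul]
  have h6 : ∑ v : Vec n, ∑ ys ∈ Y, N ys * (if ¬ Good (B ys) h v then (1 : ℝ) else 0) ≤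
      2 ^ (n * n) * (2 ^ n * (1 / 2 ^ (n / 4))) := by
    rw [Finset.sum_comm, ← hNsum, Finset.sum_mul]
    apply Finset.sum_le_sum
    intro ys _
    rw [← Finset.mul_sum]
    apply mul_le_mul_of_nonneg_left _ (hN0 ys)
    rw [Finset.sum_boole, mul_one_div, le_div_iff₀ (by positivity)]
    have := good n (B ys) h hn hh
    exact_mod_cast this
  push_cast
  have h7 : (∑ v : Vec n, ∑ ys ∈ Y, N ys * (if ¬ Good (B ys) h v then (1 : ℝ) else 0) +
      2 ^ n * (2 ^ (n * n) * (2 ^ e * (1 / 2 ^ (n / 8) + 2 ^ (n * h.length) * K)))) /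
        2 ^ (n * n) ≤ 2 ^ n * β := by
    rw [div_le_iff₀ (by positivity)]
    have h8 : (2 : ℝ) ^ n * (1 / 2 ^ (n / 4) + 2 ^ e * (1 / 2 ^ (n / 8) +
        2 ^ (n * h.length) * K)) ≤ 2 ^ n * β :=
      mul_le_mul_of_nonneg_left hβ' (by positivity)
    have h9 := mul_le_mul_of_nonneg_right h8 (show (0 : ℝ) ≤ 2 ^ (n * n) by positivity)
    nlinarith
  have h9 := mul_le_mul_of_nonneg_left h7 (show (0 : ℝ) ≤ τ + 1 by linarith)
  linarith

end Pool.Agent.Helper89K9.MO
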