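import Pool.Agent.Helper89K9.MO.Stm2

/-!
# Project MO: the leaf PGO (the proofs of helper88 and helper30 for commutative rings)
-/

set_option autoImplicit false

namespace Pool.Agent.Helper89K9.MO

open Finset
open Pool.Agent.Helper89K9.MO.Inv (LD bK)
open Pool.Agent.H699R2.OMV (Vec Mat)
open Pool.Agent.Helper89K9.MA (pm mbits)

/-- polynomials in functions of degree at most `1` -/
theorem eval_mem' {F V σ : Type} [CommRing F] [Fintype V] [DecidableEq V]
    (g : σ → (V → Bool) → F)
    (hg : ∀ c, g c ∈ LD F V 1) (D : ℕ) (P : MvPolynomial σ F) (hP : P.totalDegree ≤ D) :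
    (fun z => MvPolynomial.eval (fun c => g c z) P) ∈ LD F V D := by
  have h1 : (fun z => MvPolynomial.eval (fun c => g c z) P) =
      ∑ d ∈ P.support, P.coeff d • ∏ i ∈ d.support, g i ^ d i := by
    funext z
    rw [MvPolynomial.eval_eq, Finset.sum_apply]
    refine Finset.sum_congr rfl fun d _ => ?_
    simp [Finset.prod_apply]
  rw [h1]
  refine Submodule.sum_mem _ fun d hd => Submodule.smul_mem _ _ ?_
  have h2 := Inv.prod_mem' (K := F) (V := V) d.support (fun i => g i ^ d i)
    (fun i => d i * 1) (fun i _ => Inv.pow_mem' (hg i) (d i))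
  refine Inv.LD_mono ?_ h2
  have h3 := MvPolynomial.le_totalDegree hd
  simp only [mul_one]
  exact h3.trans hP

/-- **PGO.** -/
theorem pgo : S_PGO := by
  intro n K π X p D P hP
  have key : ∀ c, (fun z => (bK (mbits (pm π X z) c) : ZMod p)) ∈
      LD (ZMod p) (Fin n × Fin K) 1 := by
    rintro ⟨r, j⟩
    cases hj : π j with
    | none =>
      have e : (fun z : Fin n × Fin K → Bool => (bK (mbits (pm π X z) (r, j)) : ZMod p)) =
          fun _ => bK (decide (X r j = 1)) := by
        funext z
        simp [mbits, pm, hj]
      rw [e]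
      exact Inv.const_mem _ _
    | some k =>
      have e : (fun z : Fin n × Fin K → Bool => (bK (mbits (pm π X z) (r, j)) : ZMod p)) =
          fun z => (fun b : Bool => (bK (decide (X r j + (if b then 1 else 0) = 1)) : ZMod p))
            (z (r, k)) := by
        funext z
        simp [mbits, pm, hj]
      rw [e]
      exact Inv.bit_mem (K := ZMod p) (V := Fin n × Fin K)
        (fun b : Bool => (bK (decide (X r j + (if b then 1 else 0) = 1)) : ZMod p)) (r, k)
  exact eval_mem' (fun c z => (if mbits (pm π X z) c then (1 : ZMod p) else 0)) key D P hP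

end Pool.Agent.Helper89K9.MO
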