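import Pool.Agent.Helper89K9.MO.Stm
import Pool.Agent.Helper89K9.MA.Stm4

/-!
# Project MO, second part: `n` parities of `K` bits, any odd modulus
-/

set_option autoImplicit false

namespace Pool.Agent.Helper89K9.MO

open Finset
open Pool.Agent.Helper89K9.MO.Inv (LD bK)
open Pool.Agent.H699R2.OMV (Prog Vec Mat)
open Pool.Agent.Helper89K9.MC (lam)
open Pool.Agent.Helper89K9.MA (par pm mbits)

open Classical in
/-- **CORE1.** -/
def S_CORE1 : Prop :=
  ∀ (p : ℕ) [NeZero p], Odd p → ∀ (n K : ℕ) (A W : Type) (D s τ : ℕ)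
    (m : (Fin n × Fin K → Bool) → A → W) (T : Prog A W (Vec n)) (u : Vec n),
    (∀ a, ∃ P : Fin s → (Fin n × Fin K → Bool) → ZMod p,
      (∀ j, P j ∈ LD (ZMod p) (Fin n × Fin K) D) ∧
      ∀ x x', (∀ j, P j x = P j x') → m x a = m x' a) →
    ((univ.filter fun z : Fin n × Fin K → Bool => T.out (m z) = u + par z ∧
      (T.addrs (m z)).length ≤ τ).card : ℝ) ≤
      2 ^ (n * K) * (1 / 2 ^ (n / 8) + ((p : ℝ) ^ s) ^ τ * (1 - 1 / lam p D) ^ (n * K / 4))

/-- **PGO.** -/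
def S_PGO : Prop :=
  ∀ (n K : ℕ) (π : Fin n → Option (Fin K)) (X : Mat n) (p : ℕ) (D : ℕ)
    (P : MvPolynomial (Fin n × Fin n) (ZMod p)), P.totalDegree ≤ D →
    (fun z => MvPolynomial.eval (fun c => if mbits (pm π X z) c then (1 : ZMod p) else 0) P) ∈
      LD (ZMod p) (Fin n × Fin K) D

end Pool.Agent.Helper89K9.MO
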