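import Pool.Agent.Helper89K9.MO.Stm
import Pool.Agent.Helper41K9.MC.Succ

/-!
# Project MO, version 2: the leaf SUCY (the proof of helper41 for given earlier answers)
-/

set_option autoImplicit false

namespace Pool.Agent.Helper89K9.MO

open Finset
open Pool.Agent.Helper89K9.MO.Inv (LD)
open Pool.Agent.TH163.AC2 (toM gm gm_eq matEquiv)
open Pool.Agent.H699R2.OMV (Prog Vec Mat)
open Pool.Agent.Helper89K9.MC
open Pool.Agent.Helper41K9.MC (norm_sgn sgn_orth)

theorem sucy : S_TREE → S_HIST → S_TAIL → S_SUCY := by
  classical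
  intro hTree hHist hTail p _ n w A G B h v hgood ys D s τ b hb0 hb1 hcor m T hm
  set X := Fin n × Fin n → Bool with hX
  set m' : X → A → Fin w → Bool := fun x => m (toM G B x) with hm'
  set hy : X → List (Vec n) := fun x => h.map (toM G B x).mulVec with hhy
  -- the number of the matrices with these answers
  set N := (univ.filter fun M : Mat n => h.map M.mulVec = ys).card with hN
  have hN1 : (N : ℝ) = ∑ x : X, (if hy x = ys then (1 : ℝ) else 0) := by
    have h1 : (N : ℝ) = ∑ M : Mat n, (if h.map M.mulVec = ys then (1 : ℝ) else 0) := by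
      rw [hN, Finset.sum_boole]
    rw [h1]
    exact (Equiv.sum_comp (matEquiv G B) (fun M : Mat n =>
      (if h.map M.mulVec = ys then (1 : ℝ) else 0))).symm
  -- the correlations
  set F : Finset (Fin n) → ℂ := fun S => ∑ x : X,
    (if (T.addrs (m' x)).length ≤ τ then
      (if hy x = ys then sgn S (gm B x v) else 0) *
        sgn S ((G : Mat n).mulVec (T.out (m' x))) else 0) with hF
  have hF2 : ∀ S, ‖F S‖ ≤ N := by
    intro S
    rw [hN1]
    calc _ ≤ ∑ x : X, ‖(if (T.addrs (m' x)).length ≤ τ then
      (if hy x = ys then sgn S (gm B x v) else 0) *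
        sgn S ((G : Mat n).mulVec (T.out (m' x))) else 0)‖ := norm_sum_le _ _
      _ ≤ ∑ x : X, (if hy x = ys then (1 : ℝ) else 0) := by
        apply Finset.sum_le_sum
        intro x _
        by_cases hyx : hy x = ys
        · rw [if_pos hyx, if_pos hyx]
          split_ifs
          · rw [norm_mul, norm_sgn, norm_sgn, one_mul]
          · simp
        · rw [if_neg hyx, if_neg hyx]
          simp
  have hF3 : ∀ S : Finset (Fin n), ¬ 4 * S.card < n →
      ‖F S‖ ≤ ((p : ℝ) ^ s) ^ τ * (2 ^ (n * n) * b ^ (n * n / 64)) := by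
    intro S hS
    apply hTree p X A (Fin w → Bool) (Vec n) (LD (ZMod p) (Fin n × Fin n) D) s m' hm
      (fun o => sgn S ((G : Mat n).mulVec o)) (fun o => (norm_sgn _ _).le)
      (2 ^ (n * n) * b ^ (n * n / 64)) T τ
      (fun x => if hy x = ys then sgn S (gm B x v) else 0)
    intro Q hQ
    apply hHist p n G B h v hgood S ys D b hb0 hb1 hcor (n * n / 64) _ Q hQ
    have h2 : n ≤ 4 * S.card := not_lt.mp hS
    have h3 : n * n ≤ n * (4 * S.card) := Nat.mul_le_mul_left n h2
    have h4 : n * (4 * S.card) = 4 * (n * S.card) := by ring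
    omega
  -- the count
  set C := (univ.filter fun M : Mat n => h.map M.mulVec = ys ∧ T.out (m M) = M.mulVec v ∧
      (T.addrs (m M)).length ≤ τ).card with hC
  have hC1 : (C : ℂ) = ∑ x : X, (if hy x = ys ∧ T.out (m' x) = (toM G B x).mulVec v ∧
      (T.addrs (m' x)).length ≤ τ then (1 : ℂ) else 0) := by
    have h1 : (C : ℂ) = ∑ M : Mat n, (if h.map M.mulVec = ys ∧ T.out (m M) = M.mulVec v ∧
      (T.addrs (m M)).length ≤ τ then (1 : ℂ) else 0) := by
      rw [hC, Finset.sum_boole]
    rw [h1]
    exact (Equiv.sum_comp (matEquiv G B) (fun M : Mat n =>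
      (if h.map M.mulVec = ys ∧ T.out (m M) = M.mulVec v ∧
      (T.addrs (m M)).length ≤ τ then (1 : ℂ) else 0))).symm
  have hsum : ∑ S, F S = 2 ^ n * (C : ℂ) := by
    simp only [hF]
    rw [Finset.sum_comm, hC1, Finset.mul_sum]
    apply Finset.sum_congr rfl
    intro x _
    by_cases hl : (T.addrs (m' x)).length ≤ τ
    · simp only [if_pos hl]
      by_cases hyx : hy x = ys
      · simp only [if_pos hyx]
        rw [sgn_orth]
        by_cases ho : T.out (m' x) = (toM G B x).mulVec v
        · rw [if_pos, if_pos ⟨hyx, ho, hl⟩, mul_one]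
          rw [gm_eq G B x v, ho]
        · rw [if_neg, if_neg, mul_zero]
          · intro hc
            exact ho hc.2.1
          · intro hc
            apply ho
            rw [gm_eq G B x v] at hc
            have h2 := congrArg (fun u => (↑G⁻¹ : Mat n).mulVec u) hc
            have h3 : ∀ u : Vec n, (↑G⁻¹ : Mat n).mulVec ((G : Mat n).mulVec u) = u := by
              intro u
              rw [Matrix.mulVec_mulVec, Units.inv_mul, Matrix.one_mulVec]
            simp only [h3] at h2
            exact h2.symm
      · simp only [if_neg hyx]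
        rw [if_neg]
        · simp
        · intro hc
          exact hyx hc.1
    · simp only [if_neg hl]
      rw [if_neg]
      · simp
      · intro hc
        exact hl hc.2.2
  have hmain : (2 : ℝ) ^ n * C ≤ ∑ S, ‖F S‖ := by
    have h1 : ‖(2 : ℂ) ^ n * (C : ℂ)‖ = 2 ^ n * C := by
      rw [norm_mul, norm_pow, Complex.norm_natCast]
      norm_num
    rw [← h1, ← hsum]
    exact norm_sum_le _ _
  set R : ℝ := ((p : ℝ) ^ s) ^ τ * (2 ^ (n * n) * b ^ (n * n / 64)) with hR
  have hR0 : 0 ≤ R := by
    rw [hR]
    positivity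
  have hsplit : ∑ S, ‖F S‖ ≤
      ((univ.filter fun S : Finset (Fin n) => 4 * S.card < n).card : ℝ) * N + 2 ^ n * R := by
    rw [← Finset.sum_filter_add_sum_filter_not univ (fun S : Finset (Fin n) => 4 * S.card < n)]
    apply add_le_add
    · calc _ ≤ ∑ _S ∈ univ.filter (fun S : Finset (Fin n) => 4 * S.card < n), (N : ℝ) :=
            Finset.sum_le_sum (fun S _ => hF2 S)
        _ = _ := by rw [Finset.sum_const, nsmul_eq_mul]
    · calc _ ≤ ∑ _S ∈ univ.filter (fun S : Finset (Fin n) => ¬ 4 * S.card < n), R :=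
            Finset.sum_le_sum (fun S hS => hF3 S (Finset.mem_filter.mp hS).2)
        _ = ((univ.filter fun S : Finset (Fin n) => ¬ 4 * S.card < n).card : ℝ) * R := by
            rw [Finset.sum_const, nsmul_eq_mul]
        _ ≤ 2 ^ n * R := by
            apply mul_le_mul_of_nonneg_right _ hR0
            have h1 : (univ.filter fun S : Finset (Fin n) => ¬ 4 * S.card < n).card ≤ 2 ^ n := by
              calc _ ≤ (univ : Finset (Finset (Fin n))).card := Finset.card_filter_le _ _
                _ = 2 ^ n := by
                  rw [Finset.card_univ, Fintype.card_finset, Fintype.card_fin]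
            exact_mod_cast h1
  have htail : ((univ.filter fun S : Finset (Fin n) => 4 * S.card < n).card : ℝ) ≤
      2 ^ n * (1 / 2 ^ (n / 8)) := by
    have h1 := hTail n
    have h2 : ((univ.filter fun S : Finset (Fin n) => 4 * S.card < n).card : ℝ) * 2 ^ (n / 8) ≤
        2 ^ n := by exact_mod_cast h1
    rw [mul_one_div, le_div_iff₀ (by positivity)]
    exact h2
  have hfin : (2 : ℝ) ^ n * C ≤ 2 ^ n * (N / 2 ^ (n / 8) +
      2 ^ (n * n) * (((p : ℝ) ^ s) ^ τ * b ^ (n * n / 64))) := by
    calc (2 : ℝ) ^ n * C ≤ _ := hmain.trans hsplit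
      _ ≤ 2 ^ n * (1 / 2 ^ (n / 8)) * N + 2 ^ n * R := by
          have : (0 : ℝ) ≤ N := Nat.cast_nonneg _
          nlinarith [mul_le_mul_of_nonneg_right htail this]
      _ = _ := by
          rw [hR]
          ring
  exact le_of_mul_le_mul_left hfin (by positivity)

end Pool.Agent.Helper89K9.MO
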