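import Pool.Agent.Helper89K9.MO.Stm

/-!
# Project MO: the leaf TREE
-/

set_option autoImplicit false

namespace Pool.Agent.Helper89K9.MO

open Finset
open Pool.Agent.H699R2.OMV (Prog)
open Pool.Agent.Helper89K9.MC

lemma std_sum (p : ℕ) [NeZero p] {ι : Type*} (S : Finset ι) (f : ι → ZMod p) :
    (ZMod.stdAddChar (∑ j ∈ S, f j) : ℂ) = ∏ j ∈ S, (ZMod.stdAddChar (f j) : ℂ) := by
  classical
  induction S using Finset.induction_on with
  | empty => simp
  | insert a S ha ih =>
    rw [Finset.sum_insert ha, Finset.prod_insert ha, AddChar.map_add_eq_mul, ih]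

/-- orthogonality of characters on `(ZMod p) ^ s` -/
lemma ind (p : ℕ) [NeZero p] (s : ℕ) (t : Fin s → ZMod p) :
    ∑ c : Fin s → ZMod p, (ZMod.stdAddChar (∑ j, c j * t j) : ℂ) =
      if t = 0 then ((p : ℂ) ^ s) else 0 := by
  have h1 : ∀ c : Fin s → ZMod p, (ZMod.stdAddChar (∑ j, c j * t j) : ℂ) =
      ∏ j, (ZMod.stdAddChar (c j * t j) : ℂ) := fun c => std_sum p _ _
  simp only [h1]
  have h2 : ∑ c : Fin s → ZMod p, ∏ j, (ZMod.stdAddChar (c j * t j) : ℂ) =
      ∏ j, ∑ c : ZMod p, (ZMod.stdAddChar (c * t j) : ℂ) := by
    rw [Finset.prod_univ_sum, Fintype.piFinset_univ]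
  rw [h2]
  have h3 : ∀ j, ∑ c : ZMod p, (ZMod.stdAddChar (c * t j) : ℂ) =
      if t j = 0 then (p : ℂ) else 0 := by
    intro j
    have h := AddChar.sum_mulShift (R := ZMod p) (R' := ℂ) (t j) (ZMod.isPrimitive_stdAddChar p)
    rw [h, ZMod.card]
    split_ifs <;> simp
  simp only [h3]
  by_cases h : t = 0
  · rw [if_pos h]
    simp [h]
  · rw [if_neg h]
    obtain ⟨j, hj⟩ : ∃ j, t j ≠ 0 := by
      by_contra hc
      push Not at hc
      exact h (funext hc)
    exact Finset.prod_eq_zero (Finset.mem_univ j) (if_neg hj)

lemma norm_std (p : ℕ) [NeZero p] (a : ZMod p) : ‖(ZMod.stdAddChar a : ℂ)‖ = 1 := by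
  rw [ZMod.stdAddChar_apply]
  exact Circle.norm_coe _

theorem tree : S_TREE := by
  intro p _ X A W O _ L s m hm g hg B T
  induction T with
  | done o =>
    intro τ φ hφ
    have h0 := hφ 0 L.zero_mem
    have hB : 0 ≤ B := (norm_nonneg _).trans h0
    have h1 : ∑ x, (if ((Prog.done o : Prog A W O).addrs (m x)).length ≤ τ then
        φ x * g ((Prog.done o : Prog A W O).out (m x)) else 0) = (∑ x, φ x) * g o := by
      rw [Finset.sum_mul]
      apply Finset.sum_congr rfl
      intro x _
      simp [Prog.addrs, Prog.out]
    rw [h1, norm_mul]
    have h2 : ‖∑ x, φ x‖ ≤ B := by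
      simpa using h0
    have h3 : (1 : ℝ) ≤ ((p : ℝ) ^ s) ^ τ := by
      apply one_le_pow₀
      apply one_le_pow₀
      exact_mod_cast Nat.one_le_iff_ne_zero.2 (NeZero.ne p)
    calc ‖∑ x, φ x‖ * ‖g o‖ ≤ B * 1 :=
          mul_le_mul h2 (hg o) (norm_nonneg _) hB
      _ ≤ ((p : ℝ) ^ s) ^ τ * B := by nlinarith
  | probe a k ih =>
    intro τ φ hφ
    have hB : 0 ≤ B := (norm_nonneg _).trans (hφ 0 L.zero_mem)
    have hp0 : (0 : ℝ) < p := by exact_mod_cast Nat.pos_of_neZero p
    rcases τ with _ | τ
    · have h1 : ∑ x, (if ((Prog.probe a k : Prog A W O).addrs (m x)).length ≤ 0 then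
          φ x * g ((Prog.probe a k : Prog A W O).out (m x)) else 0) = 0 := by
        apply Finset.sum_eq_zero
        intro x _
        rw [if_neg]
        simp [Prog.addrs]
      rw [h1, norm_zero]
      positivity
    · classical
      obtain ⟨P, hPL, hP⟩ := hm a
      -- split by the values
      have hsplit : ∑ x, (if ((Prog.probe a k : Prog A W O).addrs (m x)).length ≤ τ + 1 then
          φ x * g ((Prog.probe a k : Prog A W O).out (m x)) else 0) =
          ∑ z : Fin s → ZMod p, ∑ x, (if ((k (m x a)).addrs (m x)).length ≤ τ then
            (if (fun j => P j x) = z then φ x else 0) * g ((k (m x a)).out (m x)) else 0) := by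
        rw [Finset.sum_comm]
        apply Finset.sum_congr rfl
        intro x _
        rw [Finset.sum_eq_single (fun j => P j x)]
        · rw [if_pos rfl]
          simp [Prog.addrs, Prog.out]
        · intro z _ hz
          rw [if_neg (Ne.symm hz)]
          simp
        · intro h
          exact absurd (Finset.mem_univ _) h
      rw [hsplit]
      have hone : ∀ z : Fin s → ZMod p,
          ‖∑ x, (if ((k (m x a)).addrs (m x)).length ≤ τ then
            (if (fun j => P j x) = z then φ x else 0) * g ((k (m x a)).out (m x)) else 0)‖ ≤
            ((p : ℝ) ^ s) ^ τ * B := by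
        intro z
        by_cases hz : ∃ x0, (fun j => P j x0) = z
        · obtain ⟨x0, hx0⟩ := hz
          have h1 : ∑ x, (if ((k (m x a)).addrs (m x)).length ≤ τ then
              (if (fun j => P j x) = z then φ x else 0) * g ((k (m x a)).out (m x)) else 0) =
              ∑ x, (if ((k (m x0 a)).addrs (m x)).length ≤ τ then
              (if (fun j => P j x) = z then φ x else 0) * g ((k (m x0 a)).out (m x)) else 0) := by
            apply Finset.sum_congr rfl
            intro x _
            by_cases hx : (fun j => P j x) = z
            · have h2 : m x a = m x0 a := by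
                apply hP
                intro j
                have := congrFun (hx.trans hx0.symm) j
                exact this
              rw [h2]
            · simp [hx]
          rw [h1]
          apply ih (m x0 a) τ
          intro Q hQ
          -- the character expansion
          have h3 : ∀ x, (if (fun j => P j x) = z then φ x else 0) *
              (ZMod.stdAddChar (Q x) : ℂ) =
              ((p : ℂ) ^ s)⁻¹ * ∑ c : Fin s → ZMod p, (ZMod.stdAddChar (-∑ j, c j * z j) : ℂ) *
                (φ x * (ZMod.stdAddChar ((Q + ∑ j, c j • P j) x) : ℂ)) := by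
            intro x
            have hp1 : ((p : ℂ) ^ s) ≠ 0 := by
              apply pow_ne_zero
              exact_mod_cast NeZero.ne p
            have h4 : ∀ c : Fin s → ZMod p, (ZMod.stdAddChar (-∑ j, c j * z j) : ℂ) *
                (φ x * (ZMod.stdAddChar ((Q + ∑ j, c j • P j) x) : ℂ)) =
                (φ x * (ZMod.stdAddChar (Q x) : ℂ)) *
                  (ZMod.stdAddChar (∑ j, c j * (P j x - z j)) : ℂ) := by
              intro c
              have h5 : ∑ j, c j * (P j x - z j) = ∑ j, c j * P j x + -∑ j, c j * z j := by
                simp only [mul_sub, Finset.sum_sub_distrib]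
                ring
              have h6 : (Q + ∑ j, c j • P j) x = Q x + ∑ j, c j * P j x := by
                simp [Finset.sum_apply]
              rw [h5, h6, AddChar.map_add_eq_mul, AddChar.map_add_eq_mul]
              ring
            simp only [h4]
            rw [← Finset.mul_sum, ind p s (fun j => P j x - z j)]
            by_cases hx : (fun j => P j x) = z
            · rw [if_pos hx, if_pos]
              · field_simp
              · funext j
                have h9 : P j x = z j := congrFun hx j
                show P j x - z j = 0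
                rw [h9, sub_self]
            · rw [if_neg hx, if_neg]
              · simp
              · intro h
                apply hx
                funext j
                have := congrFun h j
                exact sub_eq_zero.mp this
          simp only [h3]
          rw [← Finset.mul_sum, Finset.sum_comm]
          simp only [← Finset.mul_sum]
          rw [norm_mul]
          have h7 : ‖∑ c : Fin s → ZMod p, (ZMod.stdAddChar (-∑ j, c j * z j) : ℂ) *
              ∑ x, φ x * (ZMod.stdAddChar ((Q + ∑ j, c j • P j) x) : ℂ)‖ ≤
              (p : ℝ) ^ s * B := by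
            calc _ ≤ ∑ c : Fin s → ZMod p, ‖(ZMod.stdAddChar (-∑ j, c j * z j) : ℂ) *
                ∑ x, φ x * (ZMod.stdAddChar ((Q + ∑ j, c j • P j) x) : ℂ)‖ :=
                  norm_sum_le _ _
              _ ≤ ∑ _c : Fin s → ZMod p, B := by
                apply Finset.sum_le_sum
                intro c _
                rw [norm_mul, norm_std, one_mul]
                apply hφ
                apply L.add_mem hQ
                apply Submodule.sum_mem
                intro j _
                exact L.smul_mem _ (hPL j)
              _ = (p : ℝ) ^ s * B := by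
                rw [Finset.sum_const, Finset.card_univ, Fintype.card_fun, ZMod.card,
                  Fintype.card_fin, nsmul_eq_mul]
                push_cast
                rfl
          have h8 : ‖((p : ℂ) ^ s)⁻¹‖ = ((p : ℝ) ^ s)⁻¹ := by
            rw [norm_inv, norm_pow, Complex.norm_natCast]
          rw [h8]
          calc ((p : ℝ) ^ s)⁻¹ * _ ≤ ((p : ℝ) ^ s)⁻¹ * ((p : ℝ) ^ s * B) := by
                apply mul_le_mul_of_nonneg_left h7
                positivity
            _ = B := by
                rw [← mul_assoc, inv_mul_cancel₀ (by positivity), one_mul]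
        · have h1 : ∑ x, (if ((k (m x a)).addrs (m x)).length ≤ τ then
              (if (fun j => P j x) = z then φ x else 0) * g ((k (m x a)).out (m x)) else 0) = 0 := by
            apply Finset.sum_eq_zero
            intro x _
            have hx : (fun j => P j x) ≠ z := fun h => hz ⟨x, h⟩
            simp [hx]
          rw [h1, norm_zero]
          positivity
      calc _ ≤ ∑ z : Fin s → ZMod p, ‖∑ x, (if ((k (m x a)).addrs (m x)).length ≤ τ then
            (if (fun j => P j x) = z then φ x else 0) * g ((k (m x a)).out (m x)) else 0)‖ :=
            norm_sum_le _ _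
        _ ≤ ∑ _z : Fin s → ZMod p, ((p : ℝ) ^ s) ^ τ * B := Finset.sum_le_sum (fun z _ => hone z)
        _ = ((p : ℝ) ^ s) ^ (τ + 1) * B := by
          rw [Finset.sum_const, Finset.card_univ, Fintype.card_fun, ZMod.card,
            Fintype.card_fin, nsmul_eq_mul]
          push_cast
          ring

end Pool.Agent.Helper89K9.MO
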