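import Pool.Agent.Helper89K9.MO.Stm

/-!
# Project MO, leaf VIRT: the memory for each value of the side information
-/

set_option autoImplicit false

namespace Pool.Agent.Helper89K9.MO

open Finset
open Pool.Agent.Helper89K9.MC
open Pool.Agent.Helper89K9.MO.Inv (LD bK mono mono_mem)
open Pool.Agent.TH163.AC2 (Alg coord toM gm lenE rightE mavg coord_toM)
open Pool.Agent.H699R2.OMV (Prog Vec Mat IsProb before avg)

namespace VirtL

theorem bK_pow {K : Type} [CommRing K] (b : Bool) {k : ℕ} (hk : k ≠ 0) : (bK b : K) ^ k = bK b := by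
  cases b
  · rw [Pool.Agent.Helper89K9.MO.Inv.bK_false, zero_pow hk]
  · rw [Pool.Agent.Helper89K9.MO.Inv.bK_true, one_pow]

theorem eval_mem {K V : Type} [CommRing K] [DecidableEq V] (P : MvPolynomial V K) {D : ℕ}
    (hP : P.totalDegree ≤ D) :
    (fun x : V → Bool => MvPolynomial.eval (fun c => if x c then (1 : K) else 0) P) ∈ LD K V D := by
  have h1 : (fun x : V → Bool => MvPolynomial.eval (fun c => if x c then (1 : K) else 0) P) =
      ∑ d ∈ P.support, P.coeff d • (mono d.support : (V → Bool) → K) := by
    funext x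
    rw [MvPolynomial.eval_eq, Finset.sum_apply]
    refine Finset.sum_congr rfl fun d _ => ?_
    rw [Pi.smul_apply, smul_eq_mul]
    congr 1
    refine Finset.prod_congr rfl fun i hi => ?_
    exact bK_pow (x i) (Finsupp.mem_support_iff.1 hi)
  rw [h1]
  refine Submodule.sum_mem _ fun d hd => Submodule.smul_mem _ _ (mono_mem ?_)
  have h2 := MvPolynomial.le_totalDegree hd
  have h3 : d.support.card ≤ d.sum fun _ e => e := by
    rw [Finsupp.sum, Finset.card_eq_sum_ones]
    exact Finset.sum_le_sum fun i hi => Nat.one_le_iff_ne_zero.2 (Finsupp.mem_support_iff.1 hi)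
  omega

end VirtL

end Pool.Agent.Helper89K9.MO
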